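import Pool.Agent.helper76.DC.Main

/-!
# The double coset problem of the braid group `B₃` is solvable

For every pair of finitely generated subgroups `A, B` of `B₃` it is decidable whether
`A g B = A h B`, and one algorithm does this for all pairs at once.
-/

set_option autoImplicit false

open Pool.Agent.helper76.DC

namespace Pool.Agent.Results.MP_ae4a37_al.BraidDoubleCosets

theorem result :
    (∀ A B : Subgroup B3, A.FG → B.FG →
      ComputablePred fun p : Word × Word =>
        DoubleCoset.doubleCoset (val p.1) (A : Set B3) B =
          DoubleCoset.doubleCoset (val p.2) (A : Set B3) B) ∧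
    ComputablePred fun p : (List Word × List Word) × (Word × Word) =>
      DoubleCoset.doubleCoset (val p.2.1) (sub p.1.1 : Set B3) (sub p.1.2) =
        DoubleCoset.doubleCoset (val p.2.2) (sub p.1.1 : Set B3) (sub p.1.2) :=
  ⟨each_pair, uniform⟩

end Pool.Agent.Results.MP_ae4a37_al.BraidDoubleCosets
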